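import Pool.Agent.Helper27.BG.St3

/-!
# Project BG, module BLF: asymptotics of the known correlations
-/

set_option autoImplicit false

noncomputable section

namespace Pool.Agent.Helper27.BG

open Finset MeasureTheory
open Pool.Agent.Helper90.MT (lam mat wt szA prt szU VV DD piDD Ok EqD Avd MP)
open Pool.Agent.Helper60.GP (IsB JJ)
open Pool.Agent.Helper15.AB (Th)

/-- final assembly of the errors -/
private theorem blf_fin {S X F P O q M J ε : ℝ} (hq : 0 < q) (hM : 0 ≤ M) (hJ : 0 < J)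
    (hP : 0 ≤ P) (hε : 0 < ε) (h1 : |S - X / q * F| ≤ ε / 4 * (J * M / q * P))
    (h2 : |F - P * O| ≤ ε / 8 * P) (h3 : |X - J * M| ≤ J * M)
    (h4 : |X - J * M| * |O| ≤ ε / 4 * (J * M)) :
    |S - J * M / q * P * O| ≤ ε * (J * M / q * P) := by
  have hX : |X| ≤ 2 * (J * M) := by
    have hJM : |J * M| = J * M := abs_of_nonneg (by positivity)
    have : |X| ≤ |X - J * M| + |J * M| := by
      have := abs_add_le (X - J * M) (J * M)
      simpa using this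
    linarith
  have e1 : S - J * M / q * P * O =
      (S - X / q * F) + X / q * (F - P * O) + (X - J * M) / q * P * O := by
    field_simp
    ring
  have b2 : |X / q * (F - P * O)| ≤ ε / 4 * (J * M / q * P) := by
    rw [abs_mul, abs_div, abs_of_pos hq]
    calc |X| / q * |F - P * O| ≤ 2 * (J * M) / q * (ε / 8 * P) := by
          refine mul_le_mul (div_le_div_of_nonneg_right hX hq.le) h2 (abs_nonneg _) ?_
          positivity
      _ = ε / 4 * (J * M / q * P) := by ring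
  have b3 : |(X - J * M) / q * P * O| ≤ ε / 4 * (J * M / q * P) := by
    rw [abs_mul, abs_mul, abs_div, abs_of_pos hq, abs_of_nonneg hP]
    calc |X - J * M| / q * P * |O| = (|X - J * M| * |O|) * (P / q) := by ring
      _ ≤ (ε / 4 * (J * M)) * (P / q) := mul_le_mul_of_nonneg_right h4 (by positivity)
      _ = ε / 4 * (J * M / q * P) := by ring
  have hnn : 0 ≤ ε * (J * M / q * P) := by positivity
  rw [e1]
  refine (abs_add_three _ _ _).trans ?_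
  linarith

private theorem blf_err {Bq s l M J q ε x y : ℝ} (hl : 1 ≤ l) (hs1 : 1 ≤ s) (hsl : s ≤ l)
    (hM : 0 ≤ M) (hJ : 0 < J) (hq : 0 < q) (hε : 0 < ε) (hx0 : 0 ≤ x) (hxl : x ≤ l)
    (hy0 : 0 ≤ y) (hyl : y ≤ l) (hK : Bq ^ 2 * 2 ^ 98 ≤ ε / 4 * (J / q) * l) :
    (Bq * s * (1 + x) ^ 49) * (Bq * s * (1 + y) ^ 49) * (M / l ^ 101) ≤
      ε / 4 * (J * M / q * s ^ 50) := by
  have hl0 : 0 < l := by linarith
  have hx : (1 + x) ^ 49 ≤ (2 * l) ^ 49 := pow_le_pow_left₀ (by linarith) (by linarith) 49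
  have hy : (1 + y) ^ 49 ≤ (2 * l) ^ 49 := pow_le_pow_left₀ (by linarith) (by linarith) 49
  have hx1 : 0 ≤ (1 + x) ^ 49 := pow_nonneg (by linarith) 49
  have hy1 : 0 ≤ (1 + y) ^ 49 := pow_nonneg (by linarith) 49
  have hs2 : s ^ 2 ≤ l ^ 2 := pow_le_pow_left₀ (by linarith) hsl 2
  have h50 : (1 : ℝ) ≤ s ^ 50 := one_le_pow₀ hs1
  have hXY : (1 + x) ^ 49 * (1 + y) ^ 49 ≤ 2 ^ 98 * l ^ 98 := by
    refine (mul_le_mul hx hy hy1 (pow_nonneg (by linarith) 49)).trans (le_of_eq ?_)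
    rw [← pow_add, mul_pow]
  have hl101 : l ^ 101 = l ^ 98 * l ^ 3 := by rw [← pow_add]
  have hl98 : 0 < l ^ 98 := pow_pos hl0 98
  rw [hl101]
  clear hx hy
  generalize (1 + x) ^ 49 = X at hXY hx1 ⊢
  generalize (1 + y) ^ 49 = Y at hXY hy1 ⊢
  generalize (2 : ℝ) ^ 98 = K at hXY hK
  generalize l ^ 98 = t at hXY hl98 ⊢
  generalize s ^ 50 = z at h50 ⊢
  have hml : 0 ≤ M / (t * l ^ 3) := by positivity
  have a1 : s ^ 2 * (X * Y) ≤ l ^ 2 * (K * t) :=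
    mul_le_mul hs2 hXY (mul_nonneg hx1 hy1) (by positivity)
  have a2 : Bq ^ 2 * (s ^ 2 * (X * Y)) * (M / (t * l ^ 3)) ≤
      Bq ^ 2 * (l ^ 2 * (K * t)) * (M / (t * l ^ 3)) :=
    mul_le_mul_of_nonneg_right (mul_le_mul_of_nonneg_left a1 (sq_nonneg _)) hml
  have a3 : Bq ^ 2 * (l ^ 2 * (K * t)) * (M / (t * l ^ 3)) = Bq ^ 2 * K * (M / l) := by
    field_simp
  have a4 : Bq ^ 2 * K * (M / l) ≤ (ε / 4 * (J / q) * l) * (M / l) :=
    mul_le_mul_of_nonneg_right hK (by positivity)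
  have a5 : (ε / 4 * (J / q) * l) * (M / l) = ε / 4 * (J * M / q) * 1 := by
    field_simp
  have a6 : ε / 4 * (J * M / q) * 1 ≤ ε / 4 * (J * M / q) * z :=
    mul_le_mul_of_nonneg_left h50 (by positivity)
  have a7 : (Bq * s * X) * (Bq * s * Y) * (M / (t * l ^ 3)) =
      Bq ^ 2 * (s ^ 2 * (X * Y)) * (M / (t * l ^ 3)) := by ring
  have a8 : ε / 4 * (J * M / q) * z = ε / 4 * (J * M / q * z) := by ring
  linarith

private theorem blf_SS {W M : ℕ} (hM : 1 ≤ M) :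
    SS W M = (W.totient : ℝ) / W * (2499 / 10000 * Real.log M) := by
  unfold SS RR
  rw [Real.log_rpow (by exact_mod_cast hM)]

private theorem blf_Z {M T : ℕ} (hM : 1 ≤ M) :
    Real.log (RR M ^ ((T : ℝ) / 1000)) = (T : ℝ) / 1000 * (2499 / 10000 * Real.log M) := by
  have h0 : (0 : ℝ) < M := by exact_mod_cast hM
  unfold RR
  rw [Real.log_rpow (Real.rpow_pos_of_pos h0 _), Real.log_rpow h0]

private theorem blf_szU {α ι : Type} [Fintype α] [DecidableEq α] [Fintype ι] [DecidableEq ι]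
    (pr : α → ℕ) (hp : ∀ i, (pr i).Prime) (b b' : α → Option ι) :
    szU pr b b' ≤ szA pr b * szA pr b' := by
  unfold szU szA
  rw [← prod_mul_distrib]
  refine prod_le_prod' fun i _ => ?_
  have h := (hp i).pos
  by_cases h1 : b i = none
  · by_cases h2 : b' i = none
    · simp [h1, h2]
    · simp [h1, h2]
  · by_cases h2 : b' i = none
    · simp [h1, h2]
    · simp only [h1, h2, false_and, if_false]
      nlinarith

/-- growth conditions, satisfied for large `M` -/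
private theorem blf_grow (W s₀ : ℕ) (x₀ L : ℝ) : ∀ᶠ M : ℕ in Filter.atTop,
    s₀ ≤ M ∧ 1 ≤ M ∧ x₀ ≤ (M : ℝ) ∧ L ≤ Real.log M ∧
      ((W : ℝ) + 1) ≤ (M : ℝ) ^ (1 / 10000 : ℝ) := by
  have e1 : ∀ᶠ M : ℕ in Filter.atTop, s₀ ≤ M := Filter.eventually_ge_atTop s₀
  have e2 : ∀ᶠ M : ℕ in Filter.atTop, 1 ≤ M := Filter.eventually_ge_atTop 1
  have e3 : ∀ᶠ M : ℕ in Filter.atTop, x₀ ≤ (M : ℝ) :=
    tendsto_natCast_atTop_atTop.eventually (Filter.eventually_ge_atTop x₀)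
  have e4 : ∀ᶠ M : ℕ in Filter.atTop, L ≤ Real.log M :=
    (Real.tendsto_log_atTop.comp tendsto_natCast_atTop_atTop).eventually
      (Filter.eventually_ge_atTop L)
  have e5 : ∀ᶠ M : ℕ in Filter.atTop, ((W : ℝ) + 1) ≤ (M : ℝ) ^ (1 / 10000 : ℝ) :=
    ((tendsto_rpow_atTop (by norm_num : (0 : ℝ) < 1 / 10000)).comp
      tendsto_natCast_atTop_atTop).eventually (Filter.eventually_ge_atTop _)
  filter_upwards [e1, e2, e3, e4, e5] with M h1 h2 h3 h4 h5 using ⟨h1, h2, h3, h4, h5⟩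

/-- the level condition -/
private theorem blf_level {W M T1 T2 : ℕ} (hM : 1 ≤ M) (hRR : 1 < RR M) (hTT : T1 + T2 ≤ 2000)
    (hW : ((W : ℝ) + 1) ≤ (M : ℝ) ^ (1 / 10000 : ℝ)) :
    (W : ℝ) * (RR M ^ ((T1 : ℝ) / 1000) * RR M ^ ((T2 : ℝ) / 1000)) ≤
      (⌊(M : ℝ) ^ (4999 / 10000 : ℝ)⌋₊ : ℝ) := by
  have h0 : (0 : ℝ) < M := by exact_mod_cast hM
  have h1M : (1 : ℝ) ≤ M := by exact_mod_cast hM
  have hR0 : 0 < RR M := by linarith
  have e1 : RR M ^ ((T1 : ℝ) / 1000) * RR M ^ ((T2 : ℝ) / 1000) ≤ (M : ℝ) ^ (4998 / 10000 : ℝ) := by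
    rw [← Real.rpow_add hR0]
    have e2 : (T1 : ℝ) / 1000 + (T2 : ℝ) / 1000 ≤ 2 := by
      have : ((T1 + T2 : ℕ) : ℝ) ≤ (2000 : ℕ) := by exact_mod_cast hTT
      push_cast at this
      linarith
    refine (Real.rpow_le_rpow_of_exponent_le hRR.le e2).trans (le_of_eq ?_)
    unfold RR
    rw [← Real.rpow_mul h0.le]
    norm_num
  have e3 : (1 : ℝ) ≤ (M : ℝ) ^ (4998 / 10000 : ℝ) := Real.one_le_rpow h1M (by norm_num)
  have e4 : (M : ℝ) ^ (4999 / 10000 : ℝ) =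
      (M : ℝ) ^ (1 / 10000 : ℝ) * (M : ℝ) ^ (4998 / 10000 : ℝ) := by
    rw [← Real.rpow_add h0]
    norm_num
  have e5 : (W : ℝ) * (M : ℝ) ^ (4998 / 10000 : ℝ) + 1 ≤ (M : ℝ) ^ (4999 / 10000 : ℝ) := by
    rw [e4]
    nlinarith
  have e6 : (M : ℝ) ^ (4999 / 10000 : ℝ) < (⌊(M : ℝ) ^ (4999 / 10000 : ℝ)⌋₊ : ℝ) + 1 :=
    Nat.lt_floor_add_one _
  have e7 : (W : ℝ) * (RR M ^ ((T1 : ℝ) / 1000) * RR M ^ ((T2 : ℝ) / 1000)) ≤
      (W : ℝ) * (M : ℝ) ^ (4998 / 10000 : ℝ) := mul_le_mul_of_nonneg_left e1 (Nat.cast_nonneg _)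
  linarith

/-- BLF. -/
theorem hBlf : StBlf := by
  intro hBil hFrm hLm hPrs hVbd hErr hMer hOkw hBVf hEta hVsq hT ω hω hJ ι _ _ sh m hcard φ ψ b
    T1 T2 hφb hψb hφT hψT hTT ε hε
  obtain ⟨B, hB, hO⟩ := hOkw
  obtain ⟨hFB, hFS, hO3⟩ := hO ι hcard
  have hErr' := hErr hMer
  obtain ⟨C, hC, hM4⟩ := hMer
  have hb0 : 0 ≤ b := (abs_nonneg _).trans (hφb 0)
  obtain ⟨Bq, hBq⟩ : ∃ Bq, Bq = b * (B * C) := ⟨_, rfl⟩
  have hBq0 : 0 ≤ Bq := by rw [hBq]; positivity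
  obtain ⟨O, hOR⟩ : ∃ O, O = OR m (fun t => φ t * ψ t) := ⟨_, rfl⟩
  obtain ⟨w1, hw1⟩ := hErr' 48 (3 * 49 ^ 2 + 4 * 49) (ε / (16 * (Bq ^ 2 + 1))) (by positivity)
  obtain ⟨w2, hw2⟩ := hVsq ι m hcard (fun t => φ t * ψ t) (b * b)
    (fun t => by
      rw [abs_mul]
      exact mul_le_mul (hφb t) (hψb t) (abs_nonneg _) hb0) (ε / 16) (by positivity)
  refine ⟨max 98 (max w1 w2), ?_⟩
  intro w hw W v hGd
  have hw98 : 98 ≤ w := (le_max_left _ _).trans hw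
  have hww1 : w1 ≤ w := ((le_max_left _ _).trans (le_max_right _ _)).trans hw
  have hww2 : w2 ≤ w := ((le_max_right _ _).trans (le_max_right _ _)).trans hw
  have hW0 : 0 < W := hGd.dv.1
  have hq0 : 0 < (W.totient : ℝ) := by exact_mod_cast Nat.totient_pos.mpr hW0
  have hWr : (0 : ℝ) < W := by exact_mod_cast hW0
  obtain ⟨M1, h1⟩ := hO3 sh w W v hw98 hGd
  obtain ⟨M2, h2⟩ := hw1 w hww1 W hGd.dv
  obtain ⟨M3, h3⟩ := hw2 w hww2 W hGd.dv
  obtain ⟨M4, h4⟩ := hM4 W hW0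
  obtain ⟨M5, h5⟩ := hBVf ω hω ((49 + 1) ^ 2) 101
  obtain ⟨Ce, hCe, M6, h6⟩ := hEta ω hω 0
  obtain ⟨e3, he3⟩ : ∃ e3, e3 = min (JJ ω) (ε * JJ ω / (4 * (|O| + 1))) := ⟨_, rfl⟩
  have he30 : 0 < e3 := by
    rw [he3]
    exact lt_min hJ (by positivity)
  obtain ⟨x7, h7⟩ := hT ω hω e3 he30
  obtain ⟨L, hL⟩ : ∃ L : ℝ, L = max 1 (max ((W : ℝ) / W.totient * (10000 / 2499))
    (Bq ^ 2 * 2 ^ 98 / (ε / 4 * (JJ ω / W.totient)))) := ⟨_, rfl⟩
  obtain ⟨M8, h8⟩ := Filter.eventually_atTop.mp (blf_grow W (sh m) x7 L)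
  refine ⟨max M1 (max M2 (max M3 (max M4 (max M5 (max M6 M8))))), ?_⟩
  intro M hM
  have hMM1 : M1 ≤ M := (le_max_left _ _).trans hM
  have hM' := (le_max_right _ _).trans hM
  have hMM2 : M2 ≤ M := (le_max_left _ _).trans hM'
  have hM'' := (le_max_right _ _).trans hM'
  have hMM3 : M3 ≤ M := (le_max_left _ _).trans hM''
  have hM3' := (le_max_right _ _).trans hM''
  have hMM4 : M4 ≤ M := (le_max_left _ _).trans hM3'
  have hM4' := (le_max_right _ _).trans hM3'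
  have hMM5 : M5 ≤ M := (le_max_left _ _).trans hM4'
  have hM5' := (le_max_right _ _).trans hM4'
  have hMM6 : M6 ≤ M := (le_max_left _ _).trans hM5'
  have hMM8 : M8 ≤ M := (le_max_right _ _).trans hM5'
  obtain ⟨hOk, _, hRR, hsz, hszT⟩ := h1 M hMM1
  obtain ⟨hEr, _⟩ := h2 M hMM2
  have hVs := h3 M hMM3
  have hMe := h4 M hMM4
  obtain ⟨E, hE0, hEq, hEs⟩ := h5 M hMM5
  obtain ⟨_, _, _, _, hfp, _⟩ := h6 M hMM6
  obtain ⟨g1, g2, g3, g4, g5⟩ := h8 M hMM8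
  have hMr : (0 : ℝ) < M := by exact_mod_cast g2
  -- the size parameters
  obtain ⟨l, hl⟩ : ∃ l, l = Real.log M := ⟨_, rfl⟩
  rw [← hl] at g4
  have hl1 : 1 ≤ l := (le_max_left _ _).trans (hL ▸ g4)
  have hSS : SS W M = (W.totient : ℝ) / W * (2499 / 10000 * l) := by rw [hl]; exact blf_SS g2
  obtain ⟨s, hs⟩ : ∃ s, s = SS W M := ⟨_, rfl⟩
  have hs1 : 1 ≤ s := by
    have k1 : (W : ℝ) / W.totient * (10000 / 2499) ≤ l :=
      ((le_max_left _ _).trans (le_max_right _ _)).trans (hL ▸ g4)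
    rw [hs, hSS]
    calc (1 : ℝ) = (W.totient : ℝ) / W * (2499 / 10000 * ((W : ℝ) / W.totient * (10000 / 2499))) := by
          field_simp
      _ ≤ (W.totient : ℝ) / W * (2499 / 10000 * l) := by
          refine mul_le_mul_of_nonneg_left ?_ (by positivity)
          exact mul_le_mul_of_nonneg_left k1 (by norm_num)
  have hsl : s ≤ l := by
    rw [hs, hSS]
    have k1 : (W.totient : ℝ) / W ≤ 1 := by
      rw [div_le_one hWr]
      exact_mod_cast Nat.totient_le W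
    have k2 : (0 : ℝ) ≤ 2499 / 10000 * l := by positivity
    calc (W.totient : ℝ) / W * (2499 / 10000 * l) ≤ 1 * (2499 / 10000 * l) :=
          mul_le_mul_of_nonneg_right k1 k2
      _ ≤ l := by linarith
  have hKl : Bq ^ 2 * 2 ^ 98 ≤ ε / 4 * (JJ ω / W.totient) * l := by
    have k1 : Bq ^ 2 * 2 ^ 98 / (ε / 4 * (JJ ω / W.totient)) ≤ l :=
      ((le_max_right _ _).trans (le_max_right _ _)).trans (hL ▸ g4)
    rw [div_le_iff₀ (by positivity)] at k1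
    linarith
  -- the two functions
  have hprime := hOk.prime
  have hinj := hOk.inj
  have hYB : ∀ a : Pw W M → Option ι, |YY W M a| ≤ B := fun a => hFB _ _
  have hYS : ∀ a : Pw W M → Option ι, YY W M a ≠ 0 →
      (szA (pw W M) a : ℝ) ≤ RR M ^ (((1055 : ℕ) : ℝ) / 1000) := fun a ha =>
    hszT a 1055 (hFS _ _ ha).2
  obtain ⟨hV1, hV2⟩ := hVbd (Pw W M) ι (pw W M) m (YY W M) B _ hprime hB.le hYB hYS
  have hVB : ∀ a : Pw W M → Option ι, |Vm (pw W M) m (YY W M) a| ≤ B * (C * s) := fun a =>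
    (hV1 a).trans (mul_le_mul_of_nonneg_left (hs ▸ hMe) hB.le)
  have hUB : ∀ χ : ℕ → ℝ, (∀ t, |χ t| ≤ b) → ∀ a : Pw W M → Option ι,
      |UU W M m χ a| ≤ Bq * s := by
    intro χ hχ a
    unfold UU
    rw [abs_mul]
    calc |χ (totN M (prt (pw W M) a))| * |Vm (pw W M) m (YY W M) a| ≤ b * (B * (C * s)) :=
          mul_le_mul (hχ _) (hVB a) (abs_nonneg _) hb0
      _ = Bq * s := by rw [hBq]; ring
  have hUA : ∀ χ : ℕ → ℝ, ∀ a : Pw W M → Option ι, UU W M m χ a ≠ 0 → Avd {m} a := by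
    intro χ a ha
    exact (hV2 a (right_ne_zero_of_mul ha)).1
  have hUS : ∀ (χ : ℕ → ℝ) (T : ℕ), (∀ t, χ t ≠ 0 → t < T) → ∀ a : Pw W M → Option ι,
      UU W M m χ a ≠ 0 → (szA (pw W M) a : ℝ) ≤ RR M ^ ((T : ℝ) / 1000) := by
    intro χ T hχ a ha
    exact hszT a T (hχ _ (left_ne_zero_of_mul ha))
  have hZ : ∀ T : ℕ, (1 : ℝ) ≤ RR M ^ ((T : ℝ) / 1000) := fun T =>
    Real.one_le_rpow hRR.le (by positivity)
  obtain ⟨Z1, hZ1⟩ : ∃ Z1, Z1 = RR M ^ ((T1 : ℝ) / 1000) := ⟨_, rfl⟩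
  obtain ⟨Z2, hZ2⟩ : ∃ Z2, Z2 = RR M ^ ((T2 : ℝ) / 1000) := ⟨_, rfl⟩
  have hlog : ∀ T : ℕ, T ≤ 2000 → Real.log (RR M ^ ((T : ℝ) / 1000)) ≤ l := by
    intro T hT'
    rw [blf_Z g2, ← hl]
    have : (T : ℝ) ≤ 2000 := by exact_mod_cast hT'
    nlinarith
  obtain ⟨l1, l2, _⟩ := hLm (Pw W M) ι (pw W M) (UU W M m φ) (Bq * s) Z1 hprime hinj
    (hZ1 ▸ hZ T1) (hUB φ hφb) (hZ1 ▸ hUS φ T1 hφT)
  obtain ⟨l3, l4, _⟩ := hLm (Pw W M) ι (pw W M) (UU W M m ψ) (Bq * s) Z2 hprime hinj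
    (hZ2 ▸ hZ T2) (hUB ψ hψb) (hZ2 ▸ hUS ψ T2 hψT)
  obtain ⟨Qm, hQm⟩ : ∃ Qm, Qm = ⌊(M : ℝ) ^ (4999 / 10000 : ℝ)⌋₊ := ⟨_, rfl⟩
  have hlev : (W : ℝ) * (Z1 * Z2) ≤ Qm := by
    rw [hZ1, hZ2, hQm]
    exact blf_level g2 hRR hTT g5
  -- the bilinear form
  have bil := hBil (Pw W M) ι (pw W M) sh W v m (UU W M m φ) (UU W M m ψ) M Qm (fM ω M) E
    (Th ω M) (by rw [hcard]; exact hOk) hE0 (by
      intro n hn
      obtain ⟨k1, k2⟩ := hfp n hn
      refine ⟨k1, k2, fun i => ?_⟩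
      have k3 : (i : ℕ) ∈ Pw W M := i.2
      unfold Pw at k3
      rw [Finset.mem_filter, Finset.mem_range] at k3
      rw [Finset.mem_Ioc] at k2
      show (i : ℕ) < n
      omega) g1 (by
      intro q a hq hqQ haq
      refine hEq q a hq ?_ haq
      rw [hQm] at hqQ
      exact (Nat.le_floor_iff (by positivity)).mp hqQ) (by
      intro b1 b2 k1 k2
      have k3 : ((W * szU (pw W M) b1 b2 : ℕ) : ℝ) ≤ Qm := by
        refine le_trans ?_ hlev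
        push_cast
        refine mul_le_mul_of_nonneg_left ?_ hWr.le
        calc (szU (pw W M) b1 b2 : ℝ) ≤ (szA (pw W M) b1 : ℝ) * szA (pw W M) b2 := by
              exact_mod_cast blf_szU (pw W M) hprime b1 b2
          _ ≤ Z1 * Z2 := mul_le_mul (l2 b1 k1) (l4 b2 k2) (Nat.cast_nonneg _)
              (zero_le_one.trans (hZ1 ▸ hZ T1))
      exact_mod_cast k3)
  have prs := hPrs (Pw W M) ι (pw W M) (lam (pw W M) (UU W M m φ)) (lam (pw W M) (UU W M m ψ))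
    _ _ Z1 Z2 W Qm E hprime hinj hW0 l1 l3 l2 l4 hlev hE0
  have hfrm := hFrm (Pw W M) ι (pw W M) m (UU W M m φ) (UU W M m ψ) (Bq * s) (Bq * s) hprime
    (hUB φ hφb) (hUB ψ hψb) (hUA φ) (hUA ψ)
  rw [hcard] at prs hfrm
  obtain ⟨F, hF⟩ : ∃ F, F = ∑ b, ∑ b', (∏ i, MP m (pw W M i) (b i) (b' i)) *
    (lam (pw W M) (UU W M m φ) b * lam (pw W M) (UU W M m ψ) b') := ⟨_, rfl⟩
  rw [← hF] at bil hfrm
  -- first error
  have err1 : |∑ n ∈ (range (4 * M + 1)).filter (fun n => n ≡ v [MOD W]), fM ω M (n + sh m) *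
      (LF (pw W M) sh (UU W M m φ) n * LF (pw W M) sh (UU W M m ψ) n) -
      Th ω M / W.totient * F| ≤ ε / 4 * (JJ ω * M / W.totient * s ^ 50) := by
    refine bil.trans (prs.trans ?_)
    have k0 : (0 : ℝ) ≤ Bq * s * (1 + Real.log Z1) ^ 49 * (Bq * s * (1 + Real.log Z2) ^ 49) := by
      have := Real.log_nonneg (hZ1 ▸ hZ T1 : (1 : ℝ) ≤ Z1)
      have := Real.log_nonneg (hZ2 ▸ hZ T2 : (1 : ℝ) ≤ Z2)
      positivity
    have k1 : ∑ q ∈ Icc 1 Qm, (((49 + 1) ^ 2 : ℕ) : ℝ) ^ q.primeFactors.card * E q ≤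
        (M : ℝ) / l ^ 101 := by
      rw [hQm, hl]
      exact hEs
    refine (mul_le_mul_of_nonneg_left k1 k0).trans ?_
    refine blf_err hl1 hs1 hsl hMr.le hJ hq0 hε
      (Real.log_nonneg (hZ1 ▸ hZ T1)) ?_ (Real.log_nonneg (hZ2 ▸ hZ T2)) ?_ hKl
    · rw [hZ1]; exact hlog T1 (by omega)
    · rw [hZ2]; exact hlog T2 (by omega)
  -- the form
  have hdiag : ∑ a, UU W M m φ a * UU W M m ψ a / szA (pw W M) a =
      ∑ a, (fun t => φ t * ψ t) (totN M (prt (pw W M) a)) * Vm (pw W M) m (YY W M) a ^ 2 /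
        szA (pw W M) a := by
    refine Finset.sum_congr rfl fun a _ => ?_
    unfold UU
    ring
  have err2 : |F - s ^ 50 * O| ≤ ε / 8 * s ^ 50 := by
    have k1 : Bq * s * (Bq * s) * Er (pw W M) (49 - 1) (3 * 49 ^ 2 + 4 * 49) ≤
        ε / 16 * s ^ 50 := by
      have k2 : Er (pw W M) (49 - 1) (3 * 49 ^ 2 + 4 * 49) ≤
          ε / (16 * (Bq ^ 2 + 1)) * s ^ 48 := by rw [hs]; exact hEr
      calc Bq * s * (Bq * s) * Er (pw W M) (49 - 1) (3 * 49 ^ 2 + 4 * 49) ≤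
            Bq * s * (Bq * s) * (ε / (16 * (Bq ^ 2 + 1)) * s ^ 48) :=
            mul_le_mul_of_nonneg_left k2 (by positivity)
        _ = (Bq ^ 2 / (Bq ^ 2 + 1)) * (ε / 16 * s ^ 50) := by
            field_simp
        _ ≤ 1 * (ε / 16 * s ^ 50) := by
            refine mul_le_mul_of_nonneg_right ?_ (by positivity)
            rw [div_le_one (by positivity)]
            linarith
        _ = ε / 16 * s ^ 50 := one_mul _
    have k3 : |F - ∑ a, UU W M m φ a * UU W M m ψ a / szA (pw W M) a| ≤ ε / 16 * s ^ 50 :=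
      hfrm.trans k1
    have k4 : |∑ a, UU W M m φ a * UU W M m ψ a / szA (pw W M) a - s ^ 50 * O| ≤
        ε / 16 * s ^ 50 := by
      rw [hdiag, hOR, hs]
      exact hVs
    calc |F - s ^ 50 * O| ≤ |F - ∑ a, UU W M m φ a * UU W M m ψ a / szA (pw W M) a| +
          |∑ a, UU W M m φ a * UU W M m ψ a / szA (pw W M) a - s ^ 50 * O| := abs_sub_le _ _ _
      _ ≤ ε / 8 * s ^ 50 := by linarith
  have hTh := h7 M g3
  have err3 : |Th ω M - JJ ω * M| ≤ JJ ω * M := by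
    refine hTh.trans (mul_le_mul_of_nonneg_right ?_ hMr.le)
    rw [he3]
    exact min_le_left _ _
  have err4 : |Th ω M - JJ ω * M| * |O| ≤ ε / 4 * (JJ ω * M) := by
    have k1 : e3 * |O| ≤ ε / 4 * JJ ω := by
      have k2 : e3 ≤ ε * JJ ω / (4 * (|O| + 1)) := he3 ▸ min_le_right _ _
      calc e3 * |O| ≤ ε * JJ ω / (4 * (|O| + 1)) * |O| :=
            mul_le_mul_of_nonneg_right k2 (abs_nonneg _)
        _ = (|O| / (|O| + 1)) * (ε / 4 * JJ ω) := by field_simp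
        _ ≤ 1 * (ε / 4 * JJ ω) := by
            refine mul_le_mul_of_nonneg_right ?_ (by positivity)
            rw [div_le_one (by positivity)]
            linarith
        _ = ε / 4 * JJ ω := one_mul _
    calc |Th ω M - JJ ω * M| * |O| ≤ (e3 * M) * |O| :=
          mul_le_mul_of_nonneg_right hTh (abs_nonneg _)
      _ = (e3 * |O|) * M := by ring
      _ ≤ (ε / 4 * JJ ω) * M := mul_le_mul_of_nonneg_right k1 hMr.le
      _ = ε / 4 * (JJ ω * M) := by ring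
  rw [← hOR, ← hs]
  exact blf_fin hq0 hMr.le hJ (by positivity) hε err1 err2 err3 err4

end Pool.Agent.Helper27.BG
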